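import Pool.Agent.Helper29_CF.Stmt

/-! Modules GOODEX and STAGE. -/

namespace Pool.Agent.Helper29_CF.H44

open Finset

theorem deg_erase {V B : Type} [DecidableEq V] [DecidableEq B] (s : B → Finset V)
    (F : Finset B) (f : B) (x : V) :
    deg s (F.erase f) x ≤ deg s F x ∧ deg s F x ≤ deg s (F.erase f) x + 1 ∧
      (x ∉ s f → deg s (F.erase f) x = deg s F x) := by
  unfold deg
  have h1 : (F.erase f).filter (fun b => x ∈ s b) = (F.filter (fun b => x ∈ s b)).erase f := by
    rw [Finset.filter_erase]
  rw [h1]
  refine ⟨Finset.card_le_card (Finset.erase_subset _ _), ?_, ?_⟩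
  · have := Finset.pred_card_le_card_erase (s := F.filter (fun b => x ∈ s b)) (a := f)
    omega
  · intro hx
    rw [Finset.erase_eq_of_notMem]
    simp [hx]

theorem goodex : GoodExStmt := by
  intro V B _ _ _ _ s K cap hS
  classical
  constructor
  · rintro ⟨F0, hF0⟩
    obtain ⟨F1, hF1, hmin1⟩ := Finset.exists_min_image
      ((univ : Finset (Finset B)).filter (fun F => Adm s K cap F)) (fun F => F.card)
      ⟨F0, by simp [hF0]⟩
    have hF1' : Adm s K cap F1 := by simpa using hF1
    obtain ⟨F2, hF2, hmin2⟩ := Finset.exists_min_image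
      ((univ : Finset (Finset B)).filter (fun F => Adm s K cap F ∧ F.card = F1.card))
      (fun F => numEO s F) ⟨F1, by simp [hF1']⟩
    have hF2' : Adm s K cap F2 ∧ F2.card = F1.card := by simpa using hF2
    refine ⟨F2, hF2'.1, ?_, ?_⟩
    · intro F' hF'
      rw [hF2'.2]
      exact hmin1 F' (by simp [hF'])
    · intro F' hF' hc
      exact hmin2 F' (by simp [hF', hc, hF2'.2])
  · intro F hG f hf
    by_contra hno
    push Not at hno
    have hA : Adm s K cap (F.erase f) := by
      refine ⟨(Finset.erase_subset _ _).trans hG.adm.1, ?_⟩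
      intro x
      have h1 := hG.adm.2 x
      obtain ⟨e1, e2, e3⟩ := deg_erase s F f x
      refine ⟨?_, e1.trans h1.2⟩
      by_cases hx : x ∈ s f
      · have := hno x hx
        omega
      · rw [e3 hx]; exact h1.1
    have h2 := hG.min _ hA
    have h3 := Finset.card_erase_lt_of_mem hf
    omega

/-! ### STAGE -/

theorem pairing {I J : Type} [DecidableEq I] (t : I → J) : ∀ M : Finset I,
    ∃ τ : I → I, (∀ i, τ (τ i) = i) ∧ (∀ i, τ i ≠ i → i ∈ M ∧ t (τ i) = t i) ∧
      (∀ i ∈ M, ∀ i' ∈ M, t i = t i' → τ i = i → τ i' = i' → i = i') := by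
  intro M
  induction M using Finset.strongInduction with
  | H M ih =>
    by_cases h : ∃ a ∈ M, ∃ b ∈ M, a ≠ b ∧ t a = t b
    · obtain ⟨a, ha, b, hb, hab, ht⟩ := h
      obtain ⟨τ, h1, h2, h3⟩ := ih ((M.erase a).erase b)
        ((Finset.erase_subset _ _).trans_ssubset (Finset.erase_ssubset ha))
      have hτa : τ a = a := by
        by_contra hne
        have := (h2 a hne).1
        simp at this
      have hτb : τ b = b := by
        by_contra hne
        have := (h2 b hne).1
        simp at this
      have hne_a : ∀ i, i ≠ a → τ i ≠ a := by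
        intro i hi he
        apply hi
        rw [← h1 i, he, hτa]
      have hne_b : ∀ i, i ≠ b → τ i ≠ b := by
        intro i hi he
        apply hi
        rw [← h1 i, he, hτb]
      refine ⟨fun i => if i = a then b else if i = b then a else τ i, ?_, ?_, ?_⟩
      · intro i
        by_cases hia : i = a
        · subst hia; simp [hab.symm]
        · by_cases hib : i = b
          · subst hib; simp [hab.symm]
          · simp [hia, hib, hne_a i hia, hne_b i hib, h1]
      · intro i hi
        by_cases hia : i = a
        · subst hia; simp [ha, ht]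
        · by_cases hib : i = b
          · subst hib; simp [hab.symm, hb, ht]
          · simp only [hia, hib, if_false] at hi ⊢
            obtain ⟨e1, e2⟩ := h2 i hi
            simp only [mem_erase] at e1
            exact ⟨e1.2.2, e2⟩
      · intro i hi i' hi' htt hfi hfi'
        by_cases hia : i = a
        · subst hia; simp at hfi; exact absurd hfi hab.symm
        · by_cases hib : i = b
          · subst hib; simp [hab.symm] at hfi; exact absurd hfi hab
          · by_cases hia' : i' = a
            · subst hia'; simp at hfi'; exact absurd hfi' hab.symm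
            · by_cases hib' : i' = b
              · subst hib'; simp [hab.symm] at hfi'; exact absurd hfi' hab
              · simp only [hia, hib, if_false] at hfi
                simp only [hia', hib', if_false] at hfi'
                exact h3 i (by simp [hia, hib, hi]) i' (by simp [hia', hib', hi']) htt hfi hfi'
    · push Not at h
      refine ⟨id, fun _ => rfl, fun i hi => absurd rfl hi, ?_⟩
      intro i hi i' hi' htt _ _
      by_contra hne
      exact h i hi i' hi' hne htt

theorem stage (hH : HalfStmt) : StageStmt := by
  intro I J _ _ _ A t σ hσ hA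
  obtain ⟨τ, h1, h2, h3⟩ := pairing t (A.filter (fun i => σ i ≠ i))
  obtain ⟨χ, hχσ, hχτ⟩ := hH σ τ hσ h1
  refine ⟨A.filter (fun i => σ i = i ∨ χ i = true), Finset.filter_subset _ _, ?_, ?_, ?_⟩
  · intro i hi he
    simp [hi, he]
  · intro i hi hne hmem
    simp only [mem_filter] at hi hmem
    have c1 : χ i = true := hi.2.resolve_left hne
    have c2 : χ (σ i) = true := hmem.2.resolve_left (by rw [hσ]; exact Ne.symm hne)
    exact hχσ i hne (by rw [c1, c2])
  · intro j
    set X := A.filter (fun i => t i = j ∧ σ i ≠ i) with hX
    have e1 : (A.filter (fun i => σ i = i ∨ χ i = true)).filter (fun i => t i = j ∧ σ i ≠ i) =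
        X.filter (fun i => χ i = true) := by
      ext i
      simp only [hX, mem_filter]
      tauto
    rw [e1]
    have e2 : X.card = (X.filter (fun i => χ i = true)).card +
        (X.filter (fun i => ¬ χ i = true)).card :=
      (Finset.card_filter_add_card_filter_not _).symm
    have e3 : (X.filter (fun i => ¬ χ i = true)) ⊆
        (X.filter (fun i => ¬ χ i = true ∧ τ i ≠ i)) ∪ (X.filter (fun i => τ i = i)) := by
      intro i hi
      simp only [mem_filter, mem_union] at hi ⊢
      by_cases h : τ i = i
      · exact Or.inr ⟨hi.1, h⟩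
      · exact Or.inl ⟨hi.1, hi.2, h⟩
    have e4 : (X.filter (fun i => τ i = i)).card ≤ 1 := by
      rw [Finset.card_le_one]
      intro i hi i' hi'
      simp only [hX, mem_filter] at hi hi'
      exact h3 i (by simp [hi.1]) i' (by simp [hi'.1]) (by rw [hi.1.2.1, hi'.1.2.1]) hi.2 hi'.2
    have e5 : (X.filter (fun i => ¬ χ i = true ∧ τ i ≠ i)).card ≤
        (X.filter (fun i => χ i = true)).card := by
      apply Finset.card_le_card_of_injOn τ
      · intro i hi
        simp only [hX, coe_filter, mem_filter, Set.mem_ofPred_eq] at hi ⊢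
        obtain ⟨⟨hiA, htj, hne⟩, hχ, hτ⟩ := hi
        have h4 : τ (τ i) ≠ τ i := by rw [h1]; exact Ne.symm hτ
        obtain ⟨h5, h6⟩ := h2 (τ i) h4
        simp only [mem_filter] at h5
        have h7 := (h2 i hτ).2
        refine ⟨⟨h5.1, by rw [h7]; exact htj, h5.2⟩, ?_⟩
        have h8 := hχτ i hτ
        cases hb : χ (τ i)
        · exfalso
          apply h8
          rw [hb]
          cases hb2 : χ i
          · rfl
          · exact absurd hb2 hχ
        · rfl
      · intro i _ i' _ he
        rw [← h1 i, ← h1 i']
        exact congrArg τ he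
    have e6 := Finset.card_le_card e3
    have e7 := Finset.card_union_le (X.filter (fun i => ¬ χ i = true ∧ τ i ≠ i))
      (X.filter (fun i => τ i = i))
    omega

end Pool.Agent.Helper29_CF.H44
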